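import Mathlib

set_option autoImplicit false

open MeasureTheory Filter Topology
open scoped ENNReal

namespace Pool.Agent.Results.MP_916daf_an.NoWeight

universe u

/-- A densely defined closed sectorial sesquilinear form on the complex space `L²(Ω, μ)`.
`dom` is the form domain `V`; `form u v` is `a(u, v)`, linear in `u` and antilinear in `v`. -/
structure ClosedSectorialForm {Ω : Type u} [MeasurableSpace Ω] (μ : Measure Ω) where
  dom : Submodule ℂ (Lp ℂ 2 μ)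
  dense_dom : Dense (dom : Set (Lp ℂ 2 μ))
  form : dom →ₗ[ℂ] dom →ₛₗ[starRingEnd ℂ] ℂ
  sectorial : ∃ θ : ℝ, 0 ≤ θ ∧ θ < Real.pi / 2 ∧
    ∀ u : dom, form u u = 0 ∨ |(form u u).arg| ≤ θ
  closed : ∀ u : ℕ → dom,
    (∀ ε : ℝ, 0 < ε → ∃ N : ℕ, ∀ m, N ≤ m → ∀ n, N ≤ n →
      Real.sqrt ((form (u m - u n) (u m - u n)).re + ‖u m - u n‖ ^ 2) < ε) →
    ∃ v : dom, Tendsto
      (fun n => Real.sqrt ((form (u n - v) (u n - v)).re + ‖u n - v‖ ^ 2)) atTop (𝓝 0)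

/-- `T` (restricted to times `t ≥ 0`) is the strongly continuous semigroup on `L²(Ω, μ)` whose
generator is `-A`, where `A` is the operator associated with the form `a`:
`u ∈ D(A)` and `A u = h` iff `u ∈ V` and `a(u, v) = ∫ h * conj v` for all `v ∈ V`. -/
structure IsFormSemigroup {Ω : Type u} [MeasurableSpace Ω] {μ : Measure Ω}
    (a : ClosedSectorialForm μ) (T : ℝ → Lp ℂ 2 μ →L[ℂ] Lp ℂ 2 μ) : Prop where
  map_zero : T 0 = ContinuousLinearMap.id ℂ (Lp ℂ 2 μ)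
  map_add : ∀ s t : ℝ, 0 ≤ s → 0 ≤ t → T (s + t) = (T s).comp (T t)
  strong_cont : ∀ f : Lp ℂ 2 μ, Tendsto (fun t : ℝ => T t f) (𝓝[>] 0) (𝓝 f)
  generator : ∀ u h : Lp ℂ 2 μ,
    Tendsto (fun t : ℝ => t⁻¹ • (T t u - u)) (𝓝[>] 0) (𝓝 (-h)) ↔
      ∃ hu : u ∈ a.dom, ∀ v : a.dom,
        a.form ⟨u, hu⟩ v = ∫ x, h x * (starRingEnd ℂ) ((v : Lp ℂ 2 μ) x) ∂μ

/-- `L^∞`-boundedness of the semigroup. -/
def LInftyBounded {Ω : Type u} [MeasurableSpace Ω] {μ : Measure Ω}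
    (T : ℝ → Lp ℂ 2 μ →L[ℂ] Lp ℂ 2 μ) : Prop :=
  ∃ M : ℝ, 1 ≤ M ∧ ∀ t : ℝ, 0 ≤ t → ∀ f : Lp ℂ 2 μ, MemLp f ∞ μ →
    eLpNorm (T t f) ∞ μ ≤ ENNReal.ofReal M * eLpNorm f ∞ μ

/-- Admissible weights: `g ∈ L^∞`, `g > 0` a.e. and `1/g ∈ L^∞`. -/
def AdmissibleWeight {Ω : Type u} [MeasurableSpace Ω] (μ : Measure Ω) (g : Ω → ℝ) : Prop :=
  MemLp g ∞ μ ∧ (∀ᵐ x ∂μ, 0 < g x) ∧ MemLp (fun x => (g x)⁻¹) ∞ μ

/-- Contractivity for the weight `g`. -/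
def ContractiveForWeight {Ω : Type u} [MeasurableSpace Ω] {μ : Measure Ω}
    (T : ℝ → Lp ℂ 2 μ →L[ℂ] Lp ℂ 2 μ) (g : Ω → ℝ) : Prop :=
  ∀ t : ℝ, 0 ≤ t → ∀ f : Lp ℂ 2 μ, MemLp f ∞ μ →
    eLpNorm (fun x => (g x : ℂ) * T t f x) ∞ μ ≤ eLpNorm (fun x => (g x : ℂ) * f x) ∞ μ

section AbstractPart

variable {H : Type*} [NormedAddCommGroup H] [InnerProductSpace ℂ H]


noncomputable def P (e₁ e₂ : H) : H →L[ℂ] H :=
  (innerSL ℂ e₁).smulRight e₁ + (innerSL ℂ e₂).smulRight e₂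

noncomputable def K (e₁ e₂ : H) : H →L[ℂ] H :=
  (innerSL ℂ e₂).smulRight e₁ - (innerSL ℂ e₁).smulRight e₂

lemma P_apply (e₁ e₂ f : H) : P e₁ e₂ f = (inner ℂ e₁ f) • e₁ + (inner ℂ e₂ f) • e₂ := by
  simp [P]

lemma K_apply (e₁ e₂ f : H) : K e₁ e₂ f = (inner ℂ e₂ f) • e₁ - (inner ℂ e₁ f) • e₂ := by
  simp [K]

noncomputable def al (t : ℝ) : ℝ := Real.exp (-(t / 4)) * Real.cos t
noncomputable def be (t : ℝ) : ℝ := Real.exp (-(t / 4)) * Real.sin t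

lemma al_add (s t : ℝ) : al (s + t) = al s * al t - be s * be t := by
  unfold al be
  rw [Real.cos_add, show -((s + t) / 4) = -(s/4) + -(t/4) by ring, Real.exp_add]
  ring

lemma be_add (s t : ℝ) : be (s + t) = al s * be t + be s * al t := by
  unfold al be
  rw [Real.sin_add, show -((s + t) / 4) = -(s/4) + -(t/4) by ring, Real.exp_add]
  ring

noncomputable def T (e₁ e₂ : H) (t : ℝ) : H →L[ℂ] H :=
  ContinuousLinearMap.id ℂ H - P e₁ e₂ + (((al t : ℝ) : ℂ) • P e₁ e₂ - ((be t : ℝ) : ℂ) • K e₁ e₂)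

noncomputable def A (e₁ e₂ : H) : H →L[ℂ] H := ((1/4 : ℝ) : ℂ) • P e₁ e₂ + K e₁ e₂

lemma T_apply (e₁ e₂ f : H) (t : ℝ) : T e₁ e₂ t f =
    f - P e₁ e₂ f + (((al t : ℝ) : ℂ) • P e₁ e₂ f - ((be t : ℝ) : ℂ) • K e₁ e₂ f) := by
  simp [T]

variable {e₁ e₂ : H} (h11 : ‖e₁‖ = 1) (h22 : ‖e₂‖ = 1) (h12 : (inner ℂ e₁ e₂) = 0)
  (h21 : (inner ℂ e₂ e₁) = 0)

include h11 h22 h12 h21

lemma PP (f : H) : P e₁ e₂ (P e₁ e₂ f) = P e₁ e₂ f := by
  simp [P_apply, inner_add_right, inner_smul_right, h11, h22, h12, h21]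

lemma PK (f : H) : P e₁ e₂ (K e₁ e₂ f) = K e₁ e₂ f := by
  simp [P_apply, K_apply, inner_sub_right, inner_smul_right, h11, h22, h12, h21, sub_eq_add_neg]

lemma KP (f : H) : K e₁ e₂ (P e₁ e₂ f) = K e₁ e₂ f := by
  simp [P_apply, K_apply, inner_add_right, inner_smul_right, h11, h22, h12, h21, sub_eq_add_neg]

lemma KK (f : H) : K e₁ e₂ (K e₁ e₂ f) = - P e₁ e₂ f := by
  simp [P_apply, K_apply, inner_sub_right, inner_smul_right, h11, h22, h12, h21, sub_eq_add_neg]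
  abel

lemma T_add (s t : ℝ) : T e₁ e₂ (s + t) = (T e₁ e₂ s).comp (T e₁ e₂ t) := by
  ext f
  simp only [ContinuousLinearMap.comp_apply]
  simp only [T_apply, map_add, map_sub, map_smul, PP h11 h22 h12 h21, PK h11 h22 h12 h21,
    KP h11 h22 h12 h21, KK h11 h22 h12 h21, al_add, be_add]
  push_cast
  module

omit h11 h22 h12 h21 in
lemma T_zero : T e₁ e₂ 0 = ContinuousLinearMap.id ℂ H := by
  ext f
  simp [T_apply, al, be]

omit h11 h22 h12 h21 in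
lemma hasDeriv_al : HasDerivAt al (-(1/4)) 0 := by
  have h1 : HasDerivAt (fun t : ℝ => Real.exp (-(t/4))) (Real.exp (-(0/4)) * (-(1/4))) 0 := by
    have : HasDerivAt (fun t : ℝ => -(t/4)) (-(1/4)) 0 :=
      ((hasDerivAt_id (0:ℝ)).div_const 4).fun_neg
    exact this.exp
  have h2 := h1.fun_mul (Real.hasDerivAt_cos 0)
  have h3 : HasDerivAt al (Real.exp (-(0/4)) * (-(1/4)) * Real.cos 0 +
    Real.exp (-(0/4)) * (-Real.sin 0)) 0 := h2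
  simpa using h3

omit h11 h22 h12 h21 in
lemma hasDeriv_be : HasDerivAt be 1 0 := by
  have h1 : HasDerivAt (fun t : ℝ => Real.exp (-(t/4))) (Real.exp (-(0/4)) * (-(1/4))) 0 := by
    have : HasDerivAt (fun t : ℝ => -(t/4)) (-(1/4)) 0 :=
      ((hasDerivAt_id (0:ℝ)).div_const 4).fun_neg
    exact this.exp
  have h2 := h1.fun_mul (Real.hasDerivAt_sin 0)
  have h3 : HasDerivAt be (Real.exp (-(0/4)) * (-(1/4)) * Real.sin 0 +
    Real.exp (-(0/4)) * (Real.cos 0)) 0 := h2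
  simpa using h3

omit h11 h22 h12 h21 in
lemma T_deriv (f : H) : HasDerivAt (fun t : ℝ => T e₁ e₂ t f) (- A e₁ e₂ f) 0 := by
  have h1 : HasDerivAt (fun t : ℝ => ((al t : ℝ) : ℂ)) ((-(1/4) : ℝ) : ℂ) 0 :=
    hasDeriv_al.ofReal_comp
  have h2 : HasDerivAt (fun t : ℝ => ((be t : ℝ) : ℂ)) ((1 : ℝ) : ℂ) 0 :=
    hasDeriv_be.ofReal_comp
  have h3 := ((h1.smul_const (P e₁ e₂ f)).fun_sub (h2.smul_const (K e₁ e₂ f))).const_add
    (f - P e₁ e₂ f)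
  have h4 : (fun t : ℝ => T e₁ e₂ t f) = fun t => f - P e₁ e₂ f +
      (((al t : ℝ) : ℂ) • P e₁ e₂ f - ((be t : ℝ) : ℂ) • K e₁ e₂ f) := by
    funext t; exact T_apply e₁ e₂ f t
  rw [h4]
  convert h3 using 1
  simp only [A, add_apply, smul_apply]
  push_cast
  module

omit h11 h22 h12 h21 in
lemma T_strong (f : H) : Tendsto (fun t : ℝ => T e₁ e₂ t f) (𝓝[>] 0) (𝓝 f) := by
  have h := (T_deriv (e₁ := e₁) (e₂ := e₂) f).continuousAt.tendsto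
  rw [T_zero] at h
  exact h.mono_left nhdsWithin_le_nhds

omit h11 h22 h12 h21 in
lemma T_gen (f : H) : Tendsto (fun t : ℝ => t⁻¹ • (T e₁ e₂ t f - f)) (𝓝[>] 0)
    (𝓝 (- A e₁ e₂ f)) := by
  have h := (T_deriv (e₁ := e₁) (e₂ := e₂) f).tendsto_slope_zero_right
  simpa [T_zero] using h

omit h11 h22 h12 h21 in
lemma inner_A (f : H) : (inner ℂ f (A e₁ e₂ f)) =
    ((1/4 * (‖(inner ℂ e₁ f)‖^2 + ‖(inner ℂ e₂ f)‖^2) : ℝ) : ℂ) +
      ((inner ℂ e₂ f) * (starRingEnd ℂ) (inner ℂ e₁ f) - (inner ℂ e₁ f) * (starRingEnd ℂ) (inner ℂ e₂ f)) := by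
  simp only [A, add_apply, smul_apply, P_apply, K_apply,
    inner_add_right, inner_sub_right, inner_smul_right]
  rw [← inner_conj_symm f e₁, ← inner_conj_symm f e₂]
  have h1 : (inner ℂ e₁ f) * (starRingEnd ℂ) (inner ℂ e₁ f) = ((‖(inner ℂ e₁ f)‖^2 : ℝ) : ℂ) := by
    rw [Complex.mul_conj, Complex.normSq_eq_norm_sq]
  have h2 : (inner ℂ e₂ f) * (starRingEnd ℂ) (inner ℂ e₂ f) = ((‖(inner ℂ e₂ f)‖^2 : ℝ) : ℂ) := by
    rw [Complex.mul_conj, Complex.normSq_eq_norm_sq]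
  rw [h1, h2]
  push_cast
  ring

omit h11 h22 h12 h21 in
lemma inner_A_re (f : H) : ((inner ℂ f (A e₁ e₂ f))).re = 1/4 * (‖(inner ℂ e₁ f)‖^2 + ‖(inner ℂ e₂ f)‖^2) := by
  rw [inner_A]
  simp only [Complex.add_re, Complex.ofReal_re, Complex.sub_re, Complex.mul_re, Complex.conj_re,
    Complex.conj_im]
  ring

omit h11 h22 h12 h21 in
lemma inner_A_im (f : H) : |((inner ℂ f (A e₁ e₂ f))).im| ≤ 4 * ((inner ℂ f (A e₁ e₂ f))).re := by
  rw [inner_A_re, inner_A]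
  simp only [Complex.add_im, Complex.ofReal_im, Complex.sub_im, Complex.mul_im, Complex.conj_re,
    Complex.conj_im]
  set a := (inner ℂ e₁ f)
  set b := (inner ℂ e₂ f)
  have ha : ‖a‖^2 = a.re^2 + a.im^2 := by
    rw [← Complex.normSq_eq_norm_sq, Complex.normSq_apply]; ring
  have hb : ‖b‖^2 = b.re^2 + b.im^2 := by
    rw [← Complex.normSq_eq_norm_sq, Complex.normSq_apply]; ring
  rw [ha, hb, abs_le]
  constructor <;> nlinarith [sq_nonneg (a.re + b.im), sq_nonneg (a.re - b.im),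
    sq_nonneg (a.im + b.re), sq_nonneg (a.im - b.re)]

omit h11 h22 h12 h21 in
lemma sector (f : H) : (inner ℂ f (A e₁ e₂ f)) = 0 ∨ |((inner ℂ f (A e₁ e₂ f))).arg| ≤ Real.arctan 4 := by
  set z := (inner ℂ f (A e₁ e₂ f)) with hz
  have hre : 0 ≤ z.re := by rw [hz, inner_A_re]; positivity
  have him : |z.im| ≤ 4 * z.re := inner_A_im f
  rcases hre.eq_or_lt with h0 | hpos
  · left
    rw [← h0] at him
    have : z.im = 0 := by
      have := abs_nonneg z.im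
      exact abs_eq_zero.mp (by linarith)
    exact Complex.ext h0.symm this
  · right
    have harg : |z.arg| < Real.pi / 2 := Complex.abs_arg_lt_pi_div_two_iff.mpr (Or.inl hpos)
    have h1 : z.arg = Real.arctan (z.im / z.re) := by
      rw [← Complex.tan_arg, Real.arctan_tan]
      · linarith [(abs_lt.mp harg).1]
      · exact (abs_lt.mp harg).2
    rw [h1, abs_le]
    have h2 : |z.im / z.re| ≤ 4 := by
      rw [abs_div, abs_of_pos hpos, div_le_iff₀ hpos]; exact him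
    rw [abs_le] at h2
    constructor
    · rw [← Real.arctan_neg]
      exact Real.arctan_strictMono.monotone h2.1
    · exact Real.arctan_strictMono.monotone h2.2

end AbstractPart


section MeasurePart

variable {Ω : Type u} [MeasurableSpace Ω] {μ : Measure Ω}

/-- the bounded form `a(u, v) = (A u, v)` on the whole space -/
noncomputable def formA (e₁ e₂ : Lp ℂ 2 μ) : ClosedSectorialForm μ where
  dom := ⊤
  dense_dom := by simp
  form := LinearMap.mk₂'ₛₗ (RingHom.id ℂ) (starRingEnd ℂ)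
    (fun u v => inner ℂ (v : Lp ℂ 2 μ) (A e₁ e₂ (u : Lp ℂ 2 μ)))
    (by intro u₁ u₂ v; simp [inner_add_right])
    (by intro c u v; simp [inner_smul_right])
    (by intro u v₁ v₂; simp [inner_add_left])
    (by intro c u v; simp [inner_smul_left])
  sectorial := by
    refine ⟨Real.arctan 4, ?_, Real.arctan_lt_pi_div_two 4, ?_⟩
    · exact Real.arctan_nonneg.mpr (by norm_num)
    · intro u
      exact sector (e₁ := e₁) (e₂ := e₂) (u : Lp ℂ 2 μ)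
  closed := by
    intro u hu
    have hform : ∀ w : (⊤ : Submodule ℂ (Lp ℂ 2 μ)),
        (LinearMap.mk₂'ₛₗ (RingHom.id ℂ) (starRingEnd ℂ)
          (fun u v : (⊤ : Submodule ℂ (Lp ℂ 2 μ)) =>
            inner ℂ (v : Lp ℂ 2 μ) (A e₁ e₂ (u : Lp ℂ 2 μ)))
          (by intro u₁ u₂ v; simp [inner_add_right])
          (by intro c u v; simp [inner_smul_right])
          (by intro u v₁ v₂; simp [inner_add_left])
          (by intro c u v; simp [inner_smul_left]) w w) =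
          inner ℂ (w : Lp ℂ 2 μ) (A e₁ e₂ (w : Lp ℂ 2 μ)) := fun w => rfl
    simp only [hform] at hu ⊢
    have hnorm : ∀ w : (⊤ : Submodule ℂ (Lp ℂ 2 μ)), ‖w‖ ≤
        Real.sqrt ((inner ℂ (w : Lp ℂ 2 μ) (A e₁ e₂ (w : Lp ℂ 2 μ))).re + ‖w‖ ^ 2) := by
      intro w
      apply Real.le_sqrt_of_sq_le
      rw [inner_A_re]
      have : 0 ≤ 1/4 * (‖inner ℂ e₁ (w : Lp ℂ 2 μ)‖^2 + ‖inner ℂ e₂ (w : Lp ℂ 2 μ)‖^2) := by
        positivity
      linarith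
    have hcau : CauchySeq (fun n => (u n : Lp ℂ 2 μ)) := by
      rw [Metric.cauchySeq_iff]
      intro ε hε
      obtain ⟨N, hN⟩ := hu ε hε
      refine ⟨N, fun m hm n hn => ?_⟩
      have h1 := lt_of_le_of_lt (hnorm (u m - u n)) (hN m hm n hn)
      rw [dist_eq_norm]
      simpa using h1
    obtain ⟨v, hv⟩ := cauchySeq_tendsto_of_complete hcau
    refine ⟨⟨v, trivial⟩, ?_⟩
    have hlim : Tendsto (fun n => (u n : Lp ℂ 2 μ) - v) atTop (𝓝 0) := by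
      simpa using hv.sub_const v
    have hcont : Continuous (fun w : Lp ℂ 2 μ =>
        Real.sqrt ((inner ℂ w (A e₁ e₂ w)).re + ‖w‖ ^ 2)) := by
      apply Real.continuous_sqrt.comp
      exact (Complex.continuous_re.comp
        (Continuous.inner continuous_id (A e₁ e₂).continuous)).add (continuous_norm.pow 2)
    have h2 := (hcont.tendsto 0).comp hlim
    simpa [Function.comp_def] using h2

lemma formA_isSemigroup {e₁ e₂ : Lp ℂ 2 μ} (h11 : ‖e₁‖ = 1) (h22 : ‖e₂‖ = 1)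
    (h12 : inner ℂ e₁ e₂ = (0 : ℂ)) (h21 : inner ℂ e₂ e₁ = (0 : ℂ)) :
    IsFormSemigroup (formA e₁ e₂) (T e₁ e₂) where
  map_zero := T_zero
  map_add := fun s t _ _ => T_add h11 h22 h12 h21 s t
  strong_cont := fun f => T_strong f
  generator := by
    intro u h
    constructor
    · intro hlim
      have h1 := tendsto_nhds_unique hlim (T_gen (e₁ := e₁) (e₂ := e₂) u)
      have h2 : h = A e₁ e₂ u := neg_injective h1
      refine ⟨trivial, fun v => ?_⟩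
      subst h2
      change inner ℂ (v : Lp ℂ 2 μ) (A e₁ e₂ u) = _
      rw [L2.inner_def]
      simp only [RCLike.inner_apply]
    · rintro ⟨_, hv⟩
      have h3 : ∀ v : Lp ℂ 2 μ, inner ℂ v (A e₁ e₂ u) = inner ℂ v h := by
        intro v
        have := hv ⟨v, trivial⟩
        change inner ℂ (v : Lp ℂ 2 μ) (A e₁ e₂ u) = _ at this
        rw [this, L2.inner_def]
        simp only [RCLike.inner_apply]
      have h4 : A e₁ e₂ u = h := ext_inner_left ℂ h3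
      rw [← h4]
      exact T_gen u

lemma T_eq (e₁ e₂ f : Lp ℂ 2 μ) (t : ℝ) : T e₁ e₂ t f =
    f + (((al t : ℂ) - 1) * inner ℂ e₁ f - (be t : ℂ) * inner ℂ e₂ f) • e₁ +
      (((al t : ℂ) - 1) * inner ℂ e₂ f + (be t : ℂ) * inner ℂ e₁ f) • e₂ := by
  rw [T_apply, P_apply, K_apply]
  module

lemma abs_al_le {t : ℝ} (ht : 0 ≤ t) : |al t| ≤ 1 := by
  unfold al
  rw [abs_mul]
  have h1 : |Real.exp (-(t/4))| ≤ 1 := by
    rw [abs_of_pos (Real.exp_pos _)]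
    exact Real.exp_le_one_iff.mpr (by linarith)
  calc |Real.exp (-(t/4))| * |Real.cos t| ≤ 1 * 1 :=
        mul_le_mul h1 (Real.abs_cos_le_one t) (abs_nonneg _) zero_le_one
    _ = 1 := by norm_num

lemma abs_be_le {t : ℝ} (ht : 0 ≤ t) : |be t| ≤ 1 := by
  unfold be
  rw [abs_mul]
  have h1 : |Real.exp (-(t/4))| ≤ 1 := by
    rw [abs_of_pos (Real.exp_pos _)]
    exact Real.exp_le_one_iff.mpr (by linarith)
  calc |Real.exp (-(t/4))| * |Real.sin t| ≤ 1 * 1 :=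
        mul_le_mul h1 (Real.abs_sin_le_one t) (abs_nonneg _) zero_le_one
    _ = 1 := by norm_num

lemma enorm_inner_le (e f : Lp ℂ 2 μ) :
    ‖inner ℂ e f‖ₑ ≤ eLpNorm e 1 μ * eLpNorm f ∞ μ := by
  rw [L2.inner_def]
  calc ‖∫ a, inner ℂ (e a) (f a) ∂μ‖ₑ ≤ ∫⁻ a, ‖inner ℂ (e a) (f a)‖ₑ ∂μ :=
        enorm_integral_le_lintegral_enorm _
    _ ≤ ∫⁻ a, ‖e a‖ₑ * eLpNorm f ∞ μ ∂μ := by
        apply lintegral_mono_ae
        filter_upwards [enorm_ae_le_eLpNormEssSup (f : Ω → ℂ) μ] with a ha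
        rw [RCLike.inner_apply, enorm_mul, mul_comm, ← eLpNorm_exponent_top] at *
        have : ‖(starRingEnd ℂ) (e a)‖ₑ = ‖e a‖ₑ := by
          simp [enorm, nnnorm, RCLike.norm_conj]
        rw [this]
        gcongr
    _ = eLpNorm e 1 μ * eLpNorm f ∞ μ := by
        rw [lintegral_mul_const'']
        · rw [eLpNorm_one_eq_lintegral_enorm]
        · exact (Lp.aestronglyMeasurable e).enorm

lemma T_bounded {e₁ e₂ : Lp ℂ 2 μ} (h1 : MemLp e₁ 1 μ) (h2 : MemLp e₂ 1 μ)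
    (h1' : MemLp e₁ ∞ μ) (h2' : MemLp e₂ ∞ μ) : LInftyBounded (T e₁ e₂) := by
  set D : ℝ≥0∞ := 2 * (eLpNorm e₁ 1 μ + eLpNorm e₂ 1 μ) with hD
  set M : ℝ≥0∞ := 1 + D * (eLpNorm e₁ ∞ μ + eLpNorm e₂ ∞ μ) with hM
  have hDtop : D ≠ ∞ := by
    rw [hD]
    exact ENNReal.mul_ne_top (by simp) (ENNReal.add_ne_top.mpr ⟨h1.2.ne, h2.2.ne⟩)
  have hMtop : M ≠ ∞ := by
    rw [hM]
    exact ENNReal.add_ne_top.mpr ⟨by simp, ENNReal.mul_ne_top hDtop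
      (ENNReal.add_ne_top.mpr ⟨h1'.2.ne, h2'.2.ne⟩)⟩
  refine ⟨M.toReal, ?_, ?_⟩
  · have : (1 : ℝ≥0∞) ≤ M := by rw [hM]; exact le_self_add
    simpa using ENNReal.toReal_mono hMtop this
  intro t ht f hf
  rw [ENNReal.ofReal_toReal hMtop]
  set F := eLpNorm f ∞ μ with hF
  have hp1 := enorm_inner_le e₁ f
  have hp2 := enorm_inner_le e₂ f
  have hal : ‖(al t : ℂ) - 1‖ₑ ≤ 2 := by
    calc ‖(al t : ℂ) - 1‖ₑ ≤ ‖(al t : ℂ)‖ₑ + ‖(1 : ℂ)‖ₑ := enorm_sub_le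
      _ ≤ 1 + 1 := by
          gcongr
          · rw [← ofReal_norm, Complex.norm_real]
            simpa using abs_al_le ht
          · simp
      _ = 2 := by norm_num
  have hbe : ‖(be t : ℂ)‖ₑ ≤ 2 := by
    calc ‖(be t : ℂ)‖ₑ ≤ 1 := by
          rw [← ofReal_norm, Complex.norm_real]
          simpa using abs_be_le ht
      _ ≤ 2 := by norm_num
  have hc1 : ‖((al t : ℂ) - 1) * inner ℂ e₁ f - (be t : ℂ) * inner ℂ e₂ f‖ₑ ≤ D * F := by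
    calc _ ≤ ‖((al t : ℂ) - 1) * inner ℂ e₁ f‖ₑ + ‖(be t : ℂ) * inner ℂ e₂ f‖ₑ := enorm_sub_le
      _ ≤ 2 * (eLpNorm e₁ 1 μ * F) + 2 * (eLpNorm e₂ 1 μ * F) := by
          rw [enorm_mul, enorm_mul]
          gcongr
      _ = D * F := by rw [hD]; ring
  have hc2 : ‖((al t : ℂ) - 1) * inner ℂ e₂ f + (be t : ℂ) * inner ℂ e₁ f‖ₑ ≤ D * F := by
    calc _ ≤ ‖((al t : ℂ) - 1) * inner ℂ e₂ f‖ₑ + ‖(be t : ℂ) * inner ℂ e₁ f‖ₑ := enorm_add_le _ _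
      _ ≤ 2 * (eLpNorm e₂ 1 μ * F) + 2 * (eLpNorm e₁ 1 μ * F) := by
          rw [enorm_mul, enorm_mul]
          gcongr
      _ = D * F := by rw [hD]; ring
  rw [T_eq]
  set c₁ := ((al t : ℂ) - 1) * inner ℂ e₁ f - (be t : ℂ) * inner ℂ e₂ f
  set c₂ := ((al t : ℂ) - 1) * inner ℂ e₂ f + (be t : ℂ) * inner ℂ e₁ f
  have hco : ⇑(f + c₁ • e₁ + c₂ • e₂) =ᵐ[μ] (f + c₁ • ⇑e₁) + c₂ • ⇑e₂ := by
    filter_upwards [Lp.coeFn_add (f + c₁ • e₁) (c₂ • e₂), Lp.coeFn_add f (c₁ • e₁),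
      Lp.coeFn_smul c₁ e₁, Lp.coeFn_smul c₂ e₂] with x hx1 hx2 hx3 hx4
    rw [hx1, Pi.add_apply, hx2, Pi.add_apply, hx3, hx4]
    rfl
  rw [eLpNorm_congr_ae hco]
  have m0 := Lp.aestronglyMeasurable f
  have m1 := (Lp.aestronglyMeasurable e₁).const_smul c₁
  have m2 := (Lp.aestronglyMeasurable e₂).const_smul c₂
  calc _ ≤ eLpNorm (⇑f + c₁ • ⇑e₁) ∞ μ + eLpNorm (c₂ • ⇑e₂) ∞ μ :=
        eLpNorm_add_le (m0.add m1) m2 le_top
    _ ≤ (eLpNorm f ∞ μ + eLpNorm (c₁ • ⇑e₁) ∞ μ) + eLpNorm (c₂ • ⇑e₂) ∞ μ := by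
        gcongr
        exact eLpNorm_add_le m0 m1 le_top
    _ = (F + ‖c₁‖ₑ * eLpNorm e₁ ∞ μ) + ‖c₂‖ₑ * eLpNorm e₂ ∞ μ := by
        rw [eLpNorm_const_smul, eLpNorm_const_smul]
    _ ≤ (F + (D * F) * eLpNorm e₁ ∞ μ) + (D * F) * eLpNorm e₂ ∞ μ := by
        gcongr
    _ = M * F := by rw [hM]; ring

/-- the test function `(1_{E₁} + s 1_{E₂}) / g` -/
noncomputable def tf (E₁ E₂ : Set Ω) (g : Ω → ℝ) (s : ℝ) (x : Ω) : ℝ :=
  (E₁.indicator (fun _ => (1:ℝ)) x + s * E₂.indicator (fun _ => (1:ℝ)) x) * (g x)⁻¹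

lemma tf_memLp {E₁ E₂ : Set Ω} (hE₁ : MeasurableSet E₁) (hE₂ : MeasurableSet E₂)
    (f₁ : μ E₁ ≠ ∞) (f₂ : μ E₂ ≠ ∞) {g : Ω → ℝ} (hg : MemLp (fun x => (g x)⁻¹) ∞ μ) (s : ℝ)
    (p : ℝ≥0∞) : MemLp (tf E₁ E₂ g s) p μ := by
  have h1 : MemLp (E₁.indicator (fun _ => (1:ℝ))) p μ :=
    memLp_indicator_const p hE₁ 1 (Or.inr f₁)
  have h2 : MemLp (E₂.indicator (fun _ => (1:ℝ))) p μ :=
    memLp_indicator_const p hE₂ 1 (Or.inr f₂)
  have hb : MemLp (fun x => (E₁.indicator (fun _ => (1:ℝ)) x +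
      s * E₂.indicator (fun _ => (1:ℝ)) x)) p μ := h1.add (h2.const_mul s)
  exact MemLp.mul' (p := p) (q := ∞) (r := p) hg hb

omit [MeasurableSpace Ω] in
lemma tf_one {E₁ E₂ : Set Ω} (hd : Disjoint E₁ E₂) (g : Ω → ℝ) (s : ℝ) {x : Ω} (hx : x ∈ E₁) :
    tf E₁ E₂ g s x = (g x)⁻¹ := by
  have : x ∉ E₂ := Set.disjoint_left.mp hd hx
  simp [tf, hx, this]

omit [MeasurableSpace Ω] in
lemma tf_two {E₁ E₂ : Set Ω} (hd : Disjoint E₁ E₂) (g : Ω → ℝ) (s : ℝ) {x : Ω} (hx : x ∈ E₂) :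
    tf E₁ E₂ g s x = s * (g x)⁻¹ := by
  have : x ∉ E₁ := Set.disjoint_right.mp hd hx
  simp [tf, hx, this]

omit [MeasurableSpace Ω] in
lemma tf_bound {E₁ E₂ : Set Ω} (hd : Disjoint E₁ E₂) (g : Ω → ℝ) {s : ℝ} (hs : |s| ≤ 1) {x : Ω}
    (hx : 0 < g x) : |g x * tf E₁ E₂ g s x| ≤ 1 := by
  by_cases h1 : x ∈ E₁
  · rw [tf_one hd g s h1, mul_inv_cancel₀ hx.ne']; simp
  · by_cases h2 : x ∈ E₂
    · rw [tf_two hd g s h2, mul_left_comm, mul_inv_cancel₀ hx.ne']; simpa using hs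
    · simp [tf, h1, h2]

/-- the key inequality obtained from contractivity, for the test function
`(1_{E₁} + s 1_{E₂}) / g` at time `t` -/
lemma key {E₁ E₂ : Set Ω} (hE₁ : MeasurableSet E₁) (hE₂ : MeasurableSet E₂)
    (hd : Disjoint E₁ E₂) (h₁ : μ E₁ ≠ 0) (h₂ : μ E₂ ≠ 0) (f₁ : μ E₁ ≠ ∞) (f₂ : μ E₂ ≠ ∞)
    {c₁ c₂ : ℝ} (hc₁ : 0 < c₁) (hc₂ : 0 < c₂)
    {g : Ω → ℝ} (hg : AdmissibleWeight μ g)
    (hc : ContractiveForWeight (T (indicatorConstLp 2 hE₁ f₁ (c₁ : ℂ))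
      (indicatorConstLp 2 hE₂ f₂ (c₂ : ℂ))) g) {t : ℝ} (ht : 0 ≤ t) {s : ℝ} (hs : |s| ≤ 1) :
    ((al t - 1) * (c₁ * ∫ x in E₁, (g x)⁻¹ ∂μ) -
      be t * (s * (c₂ * ∫ x in E₂, (g x)⁻¹ ∂μ)) ≤ 0) ∧
    (s = 1 → (al t - 1) * (s * (c₂ * ∫ x in E₂, (g x)⁻¹ ∂μ)) +
      be t * (c₁ * ∫ x in E₁, (g x)⁻¹ ∂μ) ≤ 0) := by
  obtain ⟨hg1, hgpos, hginv⟩ := hg
  set e₁ := indicatorConstLp 2 hE₁ f₁ (c₁ : ℂ) with he₁
  set e₂ := indicatorConstLp 2 hE₂ f₂ (c₂ : ℂ) with he₂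
  have hm2 : MemLp (fun x => ((tf E₁ E₂ g s x : ℝ) : ℂ)) 2 μ :=
    (tf_memLp hE₁ hE₂ f₁ f₂ hginv s 2).ofReal
  have hmI : MemLp (fun x => ((tf E₁ E₂ g s x : ℝ) : ℂ)) ∞ μ :=
    (tf_memLp hE₁ hE₂ f₁ f₂ hginv s ∞).ofReal
  set F : Lp ℂ 2 μ := hm2.toLp _ with hF
  have hFae : ∀ᵐ x ∂μ, F x = ((tf E₁ E₂ g s x : ℝ) : ℂ) := hm2.coeFn_toLp
  have hFI : MemLp F ∞ μ := (memLp_congr_ae hFae).mpr hmI
  have hbd : eLpNorm (fun x => (g x : ℂ) * F x) ∞ μ ≤ 1 := by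
    rw [eLpNorm_exponent_top]
    apply eLpNormEssSup_le_of_ae_enorm_bound
    filter_upwards [hFae, hgpos] with x hx hx'
    rw [hx, ← Complex.ofReal_mul, ← ofReal_norm, Complex.norm_real, Real.norm_eq_abs]
    exact ENNReal.ofReal_le_one.mpr (tf_bound hd g hs hx')
  have hTb := (hc t ht F hFI).trans hbd
  have hTae : ∀ᵐ x ∂μ, ‖(g x : ℂ) * T e₁ e₂ t F x‖ ≤ 1 := by
    filter_upwards [enorm_ae_le_eLpNormEssSup (fun x => (g x : ℂ) * T e₁ e₂ t F x) μ] with x hx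
    have := hx.trans hTb
    rw [← ofReal_norm] at this
    exact ENNReal.ofReal_le_one.mp this
  -- the inner products
  have hin1 : inner ℂ e₁ F = ((c₁ * ∫ x in E₁, (g x)⁻¹ ∂μ : ℝ) : ℂ) := by
    rw [he₁, L2.inner_indicatorConstLp_eq_inner_setIntegral]
    have : ∫ x in E₁, F x ∂μ = ((∫ x in E₁, (g x)⁻¹ ∂μ : ℝ) : ℂ) := by
      rw [← integral_complex_ofReal]
      apply setIntegral_congr_ae hE₁
      filter_upwards [hFae] with x hx hxE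
      rw [hx, tf_one hd g s hxE]
    rw [this, RCLike.inner_apply, Complex.conj_ofReal]
    push_cast
    ring
  have hin2 : inner ℂ e₂ F = ((s * (c₂ * ∫ x in E₂, (g x)⁻¹ ∂μ) : ℝ) : ℂ) := by
    rw [he₂, L2.inner_indicatorConstLp_eq_inner_setIntegral]
    have : ∫ x in E₂, F x ∂μ = ((s * ∫ x in E₂, (g x)⁻¹ ∂μ : ℝ) : ℂ) := by
      rw [← integral_const_mul, ← integral_complex_ofReal]
      apply setIntegral_congr_ae hE₂
      filter_upwards [hFae] with x hx hxE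
      rw [hx, tf_two hd g s hxE]
    rw [this, RCLike.inner_apply, Complex.conj_ofReal]
    push_cast
    ring
  have hT := T_eq e₁ e₂ F t
  rw [hin1, hin2] at hT
  set W₁ := c₁ * ∫ x in E₁, (g x)⁻¹ ∂μ
  set W₂ := s * (c₂ * ∫ x in E₂, (g x)⁻¹ ∂μ)
  set a₁ : ℝ := (al t - 1) * W₁ - be t * W₂ with ha₁
  set a₂ : ℝ := (al t - 1) * W₂ + be t * W₁ with ha₂
  have hT' : T e₁ e₂ t F = F + (a₁ : ℂ) • e₁ + (a₂ : ℂ) • e₂ := by
    rw [hT, ha₁, ha₂]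
    push_cast
    rfl
  have hco : ∀ᵐ x ∂μ, T e₁ e₂ t F x = F x + (a₁ : ℂ) * e₁ x + (a₂ : ℂ) * e₂ x := by
    rw [hT']
    filter_upwards [Lp.coeFn_add (F + (a₁ : ℂ) • e₁) ((a₂ : ℂ) • e₂),
      Lp.coeFn_add F ((a₁ : ℂ) • e₁),
      Lp.coeFn_smul (a₁ : ℂ) e₁, Lp.coeFn_smul (a₂ : ℂ) e₂] with x hx1 hx2 hx3 hx4
    rw [hx1, Pi.add_apply, hx2, Pi.add_apply, hx3, hx4]
    rfl
  have he₁x : ∀ᵐ x ∂μ, e₁ x = E₁.indicator (fun _ => (c₁ : ℂ)) x := indicatorConstLp_coeFn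
  have he₂x : ∀ᵐ x ∂μ, e₂ x = E₂.indicator (fun _ => (c₂ : ℂ)) x := indicatorConstLp_coeFn
  constructor
  · obtain ⟨x, hxE, hx1, hx2, hx3, hx4, hx5, hx6⟩ := Measure.exists_mem_of_measure_ne_zero_of_ae h₁
      (ae_restrict_of_ae (hTae.and (hco.and (hFae.and (he₁x.and (he₂x.and hgpos))))))
    have hxE2 : x ∉ E₂ := Set.disjoint_left.mp hd hxE
    rw [hx2, hx3, hx4, hx5, tf_one hd g s hxE, Set.indicator_of_mem hxE,
      Set.indicator_of_notMem hxE2] at hx1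
    have h5 : (g x : ℂ) * (((g x)⁻¹ : ℝ) + (a₁ : ℂ) * (c₁ : ℂ) + (a₂ : ℂ) * 0) =
        ((1 + g x * (a₁ * c₁) : ℝ) : ℂ) := by
      have : (g x : ℂ) ≠ 0 := by exact_mod_cast hx6.ne'
      push_cast
      field_simp
      ring
    rw [h5, Complex.norm_real, Real.norm_eq_abs] at hx1
    have h6 := (abs_le.mp hx1).2
    by_contra hcon
    push Not at hcon
    have : 0 < g x * (a₁ * c₁) := by positivity
    linarith
  · intro hs1
    obtain ⟨x, hxE, hx1, hx2, hx3, hx4, hx5, hx6⟩ := Measure.exists_mem_of_measure_ne_zero_of_ae h₂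
      (ae_restrict_of_ae (hTae.and (hco.and (hFae.and (he₁x.and (he₂x.and hgpos))))))
    have hxE1 : x ∉ E₁ := Set.disjoint_right.mp hd hxE
    rw [hx2, hx3, hx4, hx5, tf_two hd g s hxE, Set.indicator_of_mem hxE,
      Set.indicator_of_notMem hxE1] at hx1
    have h5 : (g x : ℂ) * (((s * (g x)⁻¹ : ℝ) : ℂ) + (a₁ : ℂ) * 0 + (a₂ : ℂ) * (c₂ : ℂ)) =
        ((1 + g x * (a₂ * c₂) : ℝ) : ℂ) := by
      have : (g x : ℂ) ≠ 0 := by exact_mod_cast hx6.ne'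
      rw [hs1]
      push_cast
      field_simp
      ring
    rw [h5, Complex.norm_real, Real.norm_eq_abs] at hx1
    have h6 := (abs_le.mp hx1).2
    by_contra hcon
    push Not at hcon
    have : 0 < g x * (a₂ * c₂) := by positivity
    linarith

end MeasurePart

/-- For every σ-finite measure space with two disjoint measurable sets of positive measure there is
a closed sectorial form whose semigroup is `L^∞`-bounded but contractive for no admissible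
weight. -/
theorem result {Ω : Type u} [MeasurableSpace Ω] (μ : Measure Ω) [SigmaFinite μ]
    (h : ∃ E₁ E₂ : Set Ω, MeasurableSet E₁ ∧ MeasurableSet E₂ ∧ Disjoint E₁ E₂ ∧
      0 < μ E₁ ∧ 0 < μ E₂) :
    ∃ (a : ClosedSectorialForm μ) (T : ℝ → Lp ℂ 2 μ →L[ℂ] Lp ℂ 2 μ),
      IsFormSemigroup a T ∧ LInftyBounded T ∧
        ∀ g : Ω → ℝ, AdmissibleWeight μ g → ¬ ContractiveForWeight T g := by
  obtain ⟨E₁', E₂', hm₁, hm₂, hd', hp₁, hp₂⟩ := h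
  obtain ⟨E₁, hE₁, hs₁, h₁, f₁⟩ := Measure.exists_subset_measure_lt_top hm₁ hp₁
  obtain ⟨E₂, hE₂, hs₂, h₂, f₂⟩ := Measure.exists_subset_measure_lt_top hm₂ hp₂
  have hd : Disjoint E₁ E₂ := hd'.mono hs₁ hs₂
  have hr₁ : 0 < μ.real E₁ := ENNReal.toReal_pos h₁.ne' f₁.ne
  have hr₂ : 0 < μ.real E₂ := ENNReal.toReal_pos h₂.ne' f₂.ne
  set c₁ : ℝ := (Real.sqrt (μ.real E₁))⁻¹ with hc₁
  set c₂ : ℝ := (Real.sqrt (μ.real E₂))⁻¹ with hc₂
  have hc₁p : 0 < c₁ := by positivity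
  have hc₂p : 0 < c₂ := by positivity
  have hn₁ : ‖indicatorConstLp 2 hE₁ f₁.ne (c₁ : ℂ)‖ = 1 := by
    rw [norm_indicatorConstLp (by norm_num) (by norm_num), Complex.norm_real, Real.norm_eq_abs,
      abs_of_pos hc₁p, hc₁]
    rw [show (1 / (2 : ℝ≥0∞).toReal) = (1/2 : ℝ) by norm_num, ← Real.sqrt_eq_rpow]
    exact inv_mul_cancel₀ (Real.sqrt_pos.mpr hr₁).ne'
  have hn₂ : ‖indicatorConstLp 2 hE₂ f₂.ne (c₂ : ℂ)‖ = 1 := by
    rw [norm_indicatorConstLp (by norm_num) (by norm_num), Complex.norm_real, Real.norm_eq_abs,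
      abs_of_pos hc₂p, hc₂]
    rw [show (1 / (2 : ℝ≥0∞).toReal) = (1/2 : ℝ) by norm_num, ← Real.sqrt_eq_rpow]
    exact inv_mul_cancel₀ (Real.sqrt_pos.mpr hr₂).ne'
  have ho₁ : inner ℂ (indicatorConstLp 2 hE₁ f₁.ne (c₁ : ℂ))
      (indicatorConstLp 2 hE₂ f₂.ne (c₂ : ℂ)) = (0 : ℂ) := by
    rw [L2.inner_indicatorConstLp_indicatorConstLp hE₁ hE₂ f₁.ne f₂.ne, hd.inter_eq]
    simp
  have ho₂ : inner ℂ (indicatorConstLp 2 hE₂ f₂.ne (c₂ : ℂ))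
      (indicatorConstLp 2 hE₁ f₁.ne (c₁ : ℂ)) = (0 : ℂ) := by
    rw [L2.inner_indicatorConstLp_indicatorConstLp hE₂ hE₁ f₂.ne f₁.ne, hd.symm.inter_eq]
    simp
  have hmem₁ : ∀ p : ℝ≥0∞, MemLp (indicatorConstLp 2 hE₁ f₁.ne (c₁ : ℂ)) p μ := fun p =>
    (memLp_congr_ae indicatorConstLp_coeFn).mpr (memLp_indicator_const p hE₁ _ (Or.inr f₁.ne))
  have hmem₂ : ∀ p : ℝ≥0∞, MemLp (indicatorConstLp 2 hE₂ f₂.ne (c₂ : ℂ)) p μ := fun p =>
    (memLp_congr_ae indicatorConstLp_coeFn).mpr (memLp_indicator_const p hE₂ _ (Or.inr f₂.ne))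
  refine ⟨formA _ _, T _ _, formA_isSemigroup hn₁ hn₂ ho₁ ho₂,
    T_bounded (hmem₁ 1) (hmem₂ 1) (hmem₁ ∞) (hmem₂ ∞), ?_⟩
  intro g hg hcon
  have ht : (0 : ℝ) ≤ Real.pi / 4 := by positivity
  have k1 := (key hE₁ hE₂ hd h₁.ne' h₂.ne' f₁.ne f₂.ne hc₁p hc₂p hg hcon ht
    (s := -1) (by norm_num)).1
  have k2 := (key hE₁ hE₂ hd h₁.ne' h₂.ne' f₁.ne f₂.ne hc₁p hc₂p hg hcon ht
    (s := 1) (by norm_num)).2 rfl
  have hWpos : ∀ (E : Set Ω) (hE : MeasurableSet E), 0 < μ E → μ E < ∞ →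
      0 < ∫ x in E, (g x)⁻¹ ∂μ := by
    intro E hE hEp hEf
    have hint : IntegrableOn (fun x => (g x)⁻¹) E μ := by
      have : IsFiniteMeasure (μ.restrict E) := ⟨by simpa using hEf⟩
      exact (hg.2.2.restrict E).integrable le_top
    rw [setIntegral_pos_iff_support_of_nonneg_ae _ hint]
    · have : μ (Function.support (fun x => (g x)⁻¹) ∩ E) = μ E := by
        apply measure_congr
        filter_upwards [hg.2.1] with x hx
        apply propext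
        change (x ∈ Function.support (fun x => (g x)⁻¹) ∧ x ∈ E) ↔ x ∈ E
        constructor
        · exact fun h => h.2
        · exact fun h => ⟨(inv_pos.mpr hx).ne', h⟩
      rw [this]; exact hEp
    · exact ae_restrict_of_ae (hg.2.1.mono fun x hx => (inv_pos.mpr hx).le)
  have hW₁ := hWpos E₁ hE₁ h₁ f₁
  have hW₂ := hWpos E₂ hE₂ h₂ f₂
  have hx₁ : 0 < c₁ * ∫ x in E₁, (g x)⁻¹ ∂μ := by positivity
  have hx₂ : 0 < c₂ * ∫ x in E₂, (g x)⁻¹ ∂μ := by positivity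
  set x₁ := c₁ * ∫ x in E₁, (g x)⁻¹ ∂μ
  set x₂ := c₂ * ∫ x in E₂, (g x)⁻¹ ∂μ
  have hab : al (Real.pi / 4) = be (Real.pi / 4) := by
    unfold al be
    rw [Real.cos_pi_div_four, Real.sin_pi_div_four]
  have hbe : 1 < 2 * be (Real.pi / 4) := by
    unfold be
    rw [Real.sin_pi_div_four]
    have h1 : 1 - Real.pi / 4 / 4 ≤ Real.exp (-(Real.pi / 4 / 4)) := by
      have := Real.add_one_le_exp (-(Real.pi / 4 / 4))
      linarith
    have h2 : Real.pi < 3.15 := Real.pi_lt_d2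
    have h3 : (1.4 : ℝ) < Real.sqrt 2 := by
      apply Real.lt_sqrt_of_sq_lt; norm_num
    have h4 : (0.8 : ℝ) < Real.exp (-(Real.pi / 4 / 4)) := by linarith
    nlinarith
  rw [hab] at k1 k2
  nlinarith

end Pool.Agent.Results.MP_916daf_an.NoWeight
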